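import Pool.Agent.Helper96.GU.St
import Pool.Agent.Helper96.UT.M_ROOT

/-!
Project GU, module RTZ: the root of a cyclically reduced word.
-/

set_option autoImplicit false

namespace Pool.Agent.Helper98.GU

open Pool.Agent.Helper96.UT hiding StTOP TopV TopE tht Bd VC EC
open Pool.Agent.Helper96.GU

private theorem bar_iff {α : Type} {x y : α × Bool} (h : y = bar x) : x.1 = y.1 ∧ x.2 ≠ y.2 := by
  rw [h]
  refine ⟨rfl, ?_⟩
  simp [bar]

theorem tRTZ : StRTZ := by
  intro α u hu hzip hcyc
  obtain ⟨x0, u', rfl⟩ : ∃ x0 u', u = x0 :: u' := List.exists_cons_of_ne_nil hu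
  set u := x0 :: u' with hudef
  have hlen : 0 < u.length := by simp [hudef]
  have hpos : (0 : ℤ) < u.length := by exact_mod_cast hlen
  set c := per_ROOT u x0 with hc
  -- the periods
  let P : AddSubgroup ℤ :=
    { carrier := {d | ∀ i, c (i + d) = c i}
      zero_mem' := fun i => by simp
      add_mem' := fun {a b} ha hb i => by
        have := hb (i + a)
        rw [← add_assoc, this, ha]
      neg_mem' := fun {a} ha i => by
        have := ha (i + -a)
        rw [neg_add_cancel_right] at this
        exact this.symm }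
  have hPmem : ∀ d : ℤ, d ∈ P ↔ ∀ i, c (i + d) = c i := fun d => Iff.rfl
  obtain ⟨a, ha⟩ := Int.subgroup_cyclic P
  have hdvd : ∀ d : ℤ, d ∈ P ↔ a ∣ d := by
    intro d
    rw [ha, ← AddSubgroup.zmultiples_eq_closure, Int.mem_zmultiples_iff]
  have hshift : ∀ i : ℤ, c (i + u.length) = c i := by
    intro i
    have := per_add_ROOT u x0 i 1
    rwa [one_mul] at this
  have huP : (u.length : ℤ) ∈ P := (hPmem _).2 hshift
  have hau : a ∣ (u.length : ℤ) := (hdvd _).1 huP
  have ha0 : a ≠ 0 := by
    rintro rfl
    have := zero_dvd_iff.1 hau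
    omega
  have hnat : (a.natAbs : ℤ) ∣ (u.length : ℤ) := Int.natAbs_dvd.2 hau
  have hnat' : a.natAbs ∣ u.length := by exact_mod_cast hnat
  obtain ⟨j, hj⟩ := hnat'
  have hred : ∀ i, c (i + 1) ≠ bar (c i) := by
    intro i h
    obtain ⟨m, hm⟩ : ∃ m : ℕ, (m : ℤ) = i % u.length :=
      ⟨(i % u.length).toNat, Int.toNat_of_nonneg (Int.emod_nonneg _ hpos.ne')⟩
    have hmlt : m < u.length := by
      have := Int.emod_lt_of_pos i hpos
      rw [← hm] at this
      exact_mod_cast this
    have hi : i = m + (i / u.length) * u.length := by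
      rw [hm, mul_comm]
      exact (Int.emod_add_mul_ediv i u.length).symm
    have e1 : c i = c m := by
      rw [hi]; exact per_add_ROOT u x0 m _
    have e2 : c (i + 1) = c ((m : ℤ) + 1) := by
      have : i + 1 = ((m : ℤ) + 1) + (i / u.length) * u.length := by
        nth_rewrite 1 [hi]; ring
      rw [this]; exact per_add_ROOT u x0 _ _
    rw [e1, e2] at h
    have hcm : c m = u[m] := per_nat_ROOT u x0 m hmlt
    rcases Nat.lt_or_ge (m + 1) u.length with hm1 | hm1
    · have hmem : (u[m], u[m + 1]) ∈ u.zip u.tail := by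
        rw [List.mem_iff_getElem]
        refine ⟨m, ?_, ?_⟩
        · rw [List.length_zip, List.length_tail]
          omega
        · rw [List.getElem_zip, List.getElem_tail]
      have h1 := hzip _ hmem
      apply h1
      have hcm1 : c ((m : ℤ) + 1) = u[m + 1] := by
        have := per_nat_ROOT u x0 (m + 1) hm1
        push_cast at this
        exact this
      rw [hcm, hcm1] at h
      exact bar_iff h
    · have hmeq : m + 1 = u.length := by omega
      have h0 : c 0 = x0 := by
        have := per_nat_ROOT u x0 0 hlen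
        simpa [hudef] using this
      have h1 : c ((m : ℤ) + 1) = x0 := by
        have h2 := hshift 0
        rw [zero_add, ← hmeq] at h2
        push_cast at h2
        rw [h2, h0]
      have hlast : u.getLast? = some u[m] := by
        rw [List.getLast?_eq_getElem?]
        have : u.length - 1 = m := by omega
        rw [this]
        exact List.getElem?_eq_getElem hmlt
      apply hcyc x0 u[m] (by simp [hudef]) hlast
      rw [hcm, h1] at h
      have h3 := bar_iff h
      exact ⟨h3.1.symm, h3.2.symm⟩
  have hj1 : 1 ≤ j := by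
    rcases j with _ | j
    · rw [mul_zero] at hj; omega
    · omega
  have hper : ∀ i, c (i + (a.natAbs : ℤ)) = c i := by
    have : (a.natAbs : ℤ) ∈ P := (hdvd _).2 (Int.dvd_natAbs.2 dvd_rfl)
    exact (hPmem _).1 this
  have hprim : ∀ d : ℤ, (∀ i, c (i + d) = c i) → ((a.natAbs : ℕ) : ℤ) ∣ d := by
    intro d hd
    exact Int.natAbs_dvd.2 ((hdvd d).1 ((hPmem d).2 hd))
  let Z : Cyc α := ⟨c, a.natAbs, Int.natAbs_pos.2 ha0, hper, hred, hprim⟩
  refine ⟨Z, j, hj1, ?_⟩
  have h1 : j * Z.n = u.length := by
    change j * a.natAbs = u.length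
    rw [hj, mul_comm]
  rw [h1]
  have h2 := seg_u_ROOT u x0 0
  rw [zero_mul] at h2
  exact h2.symm

end Pool.Agent.Helper98.GU
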